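import Pool.Agent.H20.PT.Chain

/-!
# Project PT: the transports of the closed chains are a loop family (`S_LF`)
-/

set_option autoImplicit false

open Filter Set Metric Topology

universe u

namespace Pool.Agent.H61.PT.LF

open Pool.Agent.H20.PT

variable {X : Type u} {E : Type} [NormedAddCommGroup E] [NormedSpace ℝ E]

/-- concatenation of chains -/
lemma etr_append {S : CSys X E} {x y z : X} {n m : ℕ} {M M' : E ≃L[ℝ] E} (h : ETr S x y n M)
    (h' : ETr S y z m M') : ETr S x z (n + m) (M' * M) := by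
  induction h' with
  | nil => simpa using h
  | cons _ hs ih =>
    rw [← add_assoc, mul_assoc]
    exact ETr.cons ih hs

lemma etr_pow {S : CSys X E} {x : X} {n : ℕ} {M : E ≃L[ℝ] E} (h : ETr S x x n M) (p : ℕ) :
    ETr S x x (n * p) (M ^ p) := by
  induction p with
  | zero => simpa using ETr.nil (S := S) x
  | succ p ih =>
    rw [pow_succ', Nat.mul_succ]
    exact etr_append ih h

/-- transports with kicks -/
inductive PTr (S : CSys X E) (η : ℝ) : X → X → ℕ → (E → E) → Prop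
  | nil (x : X) : PTr S η x x 0 id
  | cons {x y z : X} {n : ℕ} {g : E → E} (h : PTr S η x y n g) (hs : S.step y z) (B : E →L[ℝ] E)
      (hB : ‖B‖ ≤ η) : PTr S η x z (n + 1) (fun v => S.A y z (g v) + B (S.A y z (g v)))

lemma ptr_append {S : CSys X E} {η : ℝ} {x y z : X} {n m : ℕ} {g h : E → E}
    (hg : PTr S η x y n g) (hh : PTr S η y z m h) : PTr S η x z (n + m) (fun v => h (g v)) := by
  induction hh with
  | nil => simpa using hg
  | cons _ hs B hB ih =>
    rw [← add_assoc]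
    exact PTr.cons ih hs B hB

lemma ptr_scalar {S : CSys X E} {η : ℝ} {x y : X} {n : ℕ} {M : E ≃L[ℝ] E} (h : ETr S x y n M)
    {b : ℝ} (hb : |b| ≤ η) : PTr S η x y n (fun v => (1 + b) ^ n • M v) := by
  induction h with
  | nil =>
    have : (fun v : E => (1 + b) ^ 0 • (1 : E ≃L[ℝ] E) v) = id := by
      ext v
      rw [pow_zero, one_smul]
      rfl
    rw [this]
    exact PTr.nil x
  | @cons y z n M _ hs ih =>
    have h1 : ‖b • (ContinuousLinearMap.id ℝ E)‖ ≤ η := by
      rw [norm_smul, Real.norm_eq_abs]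
      calc |b| * ‖ContinuousLinearMap.id ℝ E‖ ≤ |b| * 1 :=
            mul_le_mul_of_nonneg_left ContinuousLinearMap.norm_id_le (abs_nonneg b)
        _ ≤ η := by rw [mul_one]; exact hb
    have h2 := PTr.cons ih hs _ h1
    convert h2 using 1
    ext v
    simp only [map_smul, smul_apply, ContinuousLinearMap.id_apply]
    change (1 + b) ^ (n + 1) • (S.A y z) (M v) = _
    rw [smul_smul, ← add_smul]
    congr 1
    ring

lemma ptr_plain {S : CSys X E} {η : ℝ} (hη : 0 ≤ η) {x y : X} {n : ℕ} {M : E ≃L[ℝ] E}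
    (h : ETr S x y n M) : PTr S η x y n (fun v => M v) := by
  have := ptr_scalar h (b := 0) (by simpa using hη)
  simpa using this

lemma ptr_last {S : CSys X E} {η : ℝ} (hη : 0 ≤ η) {x y : X} {n : ℕ} {M : E ≃L[ℝ] E}
    (h : ETr S x y n M) (hn : 1 ≤ n) {B : E →L[ℝ] E} (hB : ‖B‖ ≤ η) :
    PTr S η x y n (fun v => M v + B (M v)) := by
  cases h with
  | nil => omega
  | cons h hs => exact PTr.cons (ptr_plain hη h) hs B hB

/-- the sequences of a transport with kicks -/
lemma ptr_seq {S : CSys X E} {η : ℝ} {x y : X} {n : ℕ} {g : E → E} (h : PTr S η x y n g) (v : E) :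
    ∃ (xs : ℕ → X) (vs : ℕ → E), xs 0 = x ∧ xs n = y ∧ vs 0 = v ∧ vs n = g v ∧
      ∀ j < n, S.step (xs j) (xs (j + 1)) ∧ ∃ B : E →L[ℝ] E, ‖B‖ ≤ η ∧
        vs (j + 1) = S.A (xs j) (xs (j + 1)) (vs j) + B (S.A (xs j) (xs (j + 1)) (vs j)) := by
  induction h with
  | nil => exact ⟨fun _ => x, fun _ => v, rfl, rfl, rfl, rfl, fun j hj => absurd hj (by omega)⟩
  | @cons y z n g _ hs B hB ih =>
    obtain ⟨xs, vs, h0, h1, h2, h3, h4⟩ := ih
    refine ⟨fun j => if j ≤ n then xs j else z,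
      fun j => if j ≤ n then vs j else S.A y z (g v) + B (S.A y z (g v)), ?_, ?_, ?_, ?_, ?_⟩
    · simpa using h0
    · simp
    · simpa using h2
    · simp
    · intro j hj
      rcases Nat.lt_succ_iff_lt_or_eq.1 hj with hj' | rfl
      · have e1 : j ≤ n := by omega
        have e2 : j + 1 ≤ n := by omega
        simp only [if_pos e1, if_pos e2]
        exact h4 j hj'
      · have e1 : ¬ j + 1 ≤ j := by omega
        simp only [le_refl, if_true, if_neg e1]
        rw [h1, h3]
        exact ⟨hs, B, hB, rfl⟩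

/-- the main estimate: closed transports with kicks move the vectors -/
lemma ptr_move {S : CSys X E} {κ : ℝ} (h0 : 0 < κ) (h1 : κ ≤ 1) (hN : NC S κ) {x : X} {n : ℕ}
    {g : E → E} (h : PTr S (κ / 4) x x n g) (hn : 1 ≤ n) (v : E) :
    κ / 4 * ‖v‖ ≤ ‖v - g v‖ := by
  by_cases hv : v = 0
  · rw [hv, norm_zero, mul_zero]; exact norm_nonneg _
  by_contra hc
  push Not at hc
  obtain ⟨xs, vs, e0, e1, e2, e3, e4⟩ := ptr_seq h v
  -- the norms
  have key : ∀ j < n, ‖vs (j + 1) - S.A (xs j) (xs (j + 1)) (vs j)‖ ≤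
      κ / 4 * ‖S.A (xs j) (xs (j + 1)) (vs j)‖ := by
    intro j hj
    obtain ⟨-, B, hB, hv'⟩ := e4 j hj
    rw [hv', add_sub_cancel_left]
    exact (B.le_opNorm _).trans (mul_le_mul_of_nonneg_right hB (norm_nonneg _))
  have key2 : ∀ j < n, (1 - κ / 4) * ‖S.A (xs j) (xs (j + 1)) (vs j)‖ ≤ ‖vs (j + 1)‖ := by
    intro j hj
    have h2 := key j hj
    have h3 := norm_sub_norm_le (S.A (xs j) (xs (j + 1)) (vs j)) (vs (j + 1))
    rw [norm_sub_rev] at h3
    linarith
  have hne : ∀ j ≤ n, vs j ≠ 0 := by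
    intro j
    induction j with
    | zero => intro _; rw [e2]; exact hv
    | succ j ih =>
      intro hj hz
      have h2 := key2 j (by omega)
      rw [hz, norm_zero] at h2
      have h3 : S.A (xs j) (xs (j + 1)) (vs j) ≠ 0 := by
        intro h4
        exact ih (by omega) ((S.A (xs j) (xs (j + 1))).map_eq_zero_iff.1 h4)
      have h5 : 0 < ‖S.A (xs j) (xs (j + 1)) (vs j)‖ := norm_pos_iff.2 h3
      nlinarith
  refine hN n xs (fun j => if j < n then vs j else v) hn (by rw [e0, e1]) ?_ ?_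
    (fun j hj => (e4 j hj).1) ?_
  · have : 0 < n := by omega
    simp [this, e2]
  · intro j _

    split_ifs with h2
    · exact hne j h2.le
    · exact hv
  · intro j hj

    rw [if_pos hj]
    have h2 := key j hj
    have h3 := key2 j hj
    have h5 : 0 ≤ ‖S.A (xs j) (xs (j + 1)) (vs j)‖ := norm_nonneg _
    split_ifs with hj1
    · rw [norm_sub_rev]
      have h6 : κ * ((1 - κ / 4) * ‖S.A (xs j) (xs (j + 1)) (vs j)‖) ≤ κ * ‖vs (j + 1)‖ :=
        mul_le_mul_of_nonneg_left h3 h0.le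
      have h7 : κ * (1 / 4 * ‖S.A (xs j) (xs (j + 1)) (vs j)‖) ≤
          κ * ((1 - κ / 4) * ‖S.A (xs j) (xs (j + 1)) (vs j)‖) :=
        mul_le_mul_of_nonneg_left (mul_le_mul_of_nonneg_right (by linarith) h5) h0.le
      linarith
    · have hjn : j + 1 = n := by omega
      have e5 : vs (j + 1) = g v := by rw [hjn, e3]
      rw [e5] at h2 h3
      have h6 : ‖g v‖ ≤ ‖v‖ + κ / 4 * ‖v‖ := by
        have h7 := norm_sub_norm_le (g v) v
        rw [norm_sub_rev] at h7
        linarith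
      have h8 : ‖S.A (xs j) (xs (j + 1)) (vs j) - v‖ ≤
          ‖S.A (xs j) (xs (j + 1)) (vs j) - g v‖ + ‖g v - v‖ := norm_sub_le_norm_sub_add_norm_sub _ _ _
      rw [norm_sub_rev (S.A (xs j) (xs (j + 1)) (vs j)) (g v), norm_sub_rev (g v) v] at h8
      have h9 : 0 < ‖v‖ := norm_pos_iff.2 hv
      have h10 : (3 / 4) * ‖S.A (xs j) (xs (j + 1)) (vs j)‖ ≤ (5 / 4) * ‖v‖ := by nlinarith
      nlinarith

theorem main : S_LF.{u} := by
  intro X E _ _ S κ h0 h1 hN x
  refine ⟨fun n M m M' h h' => etr_append h h', ?_, ?_⟩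
  · intro n M h hn p hp c hc1 hc2 v
    have hθ : (0 : ℝ) < 1 + κ / 4 := by linarith
    have hnp : 1 ≤ n * p := Nat.one_le_iff_ne_zero.2 (Nat.mul_ne_zero (by omega) (by omega))
    have hnp' : ((n * p : ℕ) : ℝ) ≠ 0 := by exact_mod_cast (by omega : n * p ≠ 0)
    have hc2' : c ≤ (1 + κ / 4) ^ (n * p) := by rwa [pow_mul]
    have hc1' : ((1 + κ / 4)⁻¹) ^ (n * p) ≤ c := by rwa [pow_mul, inv_pow (1 + κ / 4) n]
    have hc0 : 0 < c := lt_of_lt_of_le (by positivity) hc1'
    set r := c ^ ((n * p : ℕ) : ℝ)⁻¹ with hr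
    have hrn : r ^ (n * p) = c := Real.rpow_inv_natCast_pow hc0.le (by omega)
    have hr0 : 0 ≤ r := Real.rpow_nonneg hc0.le _
    have hr2 : r ≤ 1 + κ / 4 := by
      refine le_of_pow_le_pow_left₀ (n := n * p) (by omega) hθ.le ?_
      rwa [hrn]
    have hr1 : (1 + κ / 4)⁻¹ ≤ r := by
      refine le_of_pow_le_pow_left₀ (n := n * p) (by omega) hr0 ?_
      rwa [hrn]
    have hb : |r - 1| ≤ κ / 4 := by
      rw [abs_le]
      constructor
      · have h2 : 1 - κ / 4 ≤ (1 + κ / 4)⁻¹ := by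
          rw [le_inv_comm₀ (by linarith) hθ, ← one_div, le_div_iff₀ (by linarith)]
          nlinarith
        linarith
      · linarith
    have h2 := ptr_move h0 h1 hN (ptr_scalar (etr_pow h p) hb) hnp v
    have h3 : 1 + (r - 1) = r := by ring
    simp only [h3, hrn] at h2
    exact h2
  · intro n M m M' h h' hn _ B hB v
    have hη : 0 ≤ κ / 4 := by linarith
    exact ptr_move h0 h1 hN (ptr_append (ptr_last hη h hn hB) (ptr_plain hη h')) (by omega) v

end Pool.Agent.H61.PT.LF
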