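import Pool.Agent.H20.PT.Pow

/-!
# Project PT2, modules K2 and K3: full shifts and clocks for products
-/

set_option autoImplicit false

open Filter Set Metric

universe u v w

namespace Pool.Agent.H61.PT.K23

open Pool.Agent.H20.PT

section gen

variable {M : Type u} {N : Type v} {T : Type w}

theorem iter_prod {Θ : M × N → T} {F : T → T} {f : M → M} {g : N → N} (h : IsProd Θ F f g)
    (n : ℕ) (x : M) (y : N) : F^[n] (Θ (x, y)) = Θ (f^[n] x, g^[n] y) := by
  induction n generalizing x y with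
  | zero => rfl
  | succ n ih => rw [Function.iterate_succ_apply, h x y, ih, ← Function.iterate_succ_apply,
      ← Function.iterate_succ_apply]

end gen

theorem k2 : S_K2.{u, v, w} := by
  intro M _ N _ T _ Θ f g F hF k k' hf hg
  obtain ⟨C, hCc, hCd, hC⟩ := hf
  obtain ⟨D, hDc, hDd, hD⟩ := hg
  refine ⟨fun a => Θ '' (C (finProdFinEquiv.symm a).1 ×ˢ D (finProdFinEquiv.symm a).2),
    fun a => ?_, fun a b hab => ?_, fun n s hn => ?_⟩
  · exact Θ.isClosedMap _ ((hCc _).prod (hDc _))
  · rw [Set.disjoint_image_iff Θ.injective, Set.disjoint_prod]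
    have h1 : (finProdFinEquiv.symm a) ≠ (finProdFinEquiv.symm b) := fun h =>
      hab (finProdFinEquiv.symm.injective h)
    by_cases h2 : (finProdFinEquiv.symm a).1 = (finProdFinEquiv.symm b).1
    · exact Or.inr (hDd _ _ fun h3 => h1 (Prod.ext h2 h3))
    · exact Or.inl (hCd _ _ h2)
  · obtain ⟨x, hx, hxC⟩ := hC n (fun j => (finProdFinEquiv.symm (s j)).1) hn
    obtain ⟨y, hy, hyD⟩ := hD n (fun j => (finProdFinEquiv.symm (s j)).2) hn
    refine ⟨Θ (x, y), ?_, fun j hj => ?_⟩
    · rw [iter_prod hF, hx, hy]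
    · rw [iter_prod hF]
      exact Set.mem_image_of_mem _ ⟨hxC j hj, hyD j hj⟩

theorem k3 : S_K3.{u, v, w} := by
  intro M _ _ N _ T _ Θ f g F hF k Q z hQ hz hg
  obtain ⟨C, hCc, hCd, hC⟩ := hg
  have hper : Function.IsPeriodicPt f Q z := by
    rw [← hz]; exact Function.isPeriodicPt_minimalPeriod f z
  refine ⟨fun a => Θ '' ({z} ×ˢ C a),
    Θ '' (((fun i => f^[i] z) '' Set.Ioo 0 Q) ×ˢ (Set.univ : Set N)),
    fun a => ?_, fun a b hab => ?_, ?_, fun a => ?_, fun n s hn => ?_⟩
  · exact Θ.isClosedMap _ (isClosed_singleton.prod (hCc _))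
  · rw [Set.disjoint_image_iff Θ.injective, Set.disjoint_prod]
    exact Or.inr (hCd a b hab)
  · exact Θ.isClosedMap _ (((Set.finite_Ioo 0 Q).image _).isClosed.prod isClosed_univ)
  · rw [Set.disjoint_image_iff Θ.injective, Set.disjoint_prod]
    left
    rw [Set.disjoint_singleton_left]
    rintro ⟨i, hi, hiz⟩
    have h1 : Function.IsPeriodicPt f i z := hiz
    have h2 : Function.minimalPeriod f z ≤ i := h1.minimalPeriod_le hi.1
    rw [hz] at h2
    exact absurd hi.2 (not_lt.2 h2)
  · obtain ⟨y, hy, hyC⟩ := hC n s hn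
    refine ⟨Θ (z, y), ?_, fun j hj => ?_, fun i hi => ?_⟩
    · rw [iter_prod hF, Function.iterate_mul g Q n, hy]
      congr 2
      exact (hper.mul_const n)
    · rw [iter_prod hF, Function.iterate_mul g Q j]
      refine Set.mem_image_of_mem _ ⟨?_, hyC j hj⟩
      exact (hper.mul_const j)
    · rw [iter_prod hF]
      refine Set.mem_image_of_mem _ ⟨⟨i % Q, ⟨?_, Nat.mod_lt _ (by omega)⟩, ?_⟩, Set.mem_univ _⟩
      · rw [Nat.pos_iff_ne_zero]
        intro h
        exact hi (Nat.dvd_of_mod_eq_zero h)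
      · exact hper.iterate_mod_apply i

end Pool.Agent.H61.PT.K23
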