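import Pool.Agent.H20.PT.Pow

/-!
# Project PT2, module K4: a clock in the second factor
-/

set_option autoImplicit false

open Filter Set Metric

universe v

namespace Pool.Agent.H61.PT.K4

open Pool.Agent.H20.PT

theorem k4 : S_K4.{v} := by
  intro N _ g q hq hg
  obtain ⟨C, -, hCd, hC⟩ := hg
  obtain ⟨y, hy, hyC⟩ := hC q (fun j => if j = 0 then 1 else 0) hq
  have hper : Function.IsPeriodicPt (g^[q]) q y := hy
  have hmin : Function.minimalPeriod (g^[q]) y = q := by
    refine le_antisymm (hper.minimalPeriod_le (by omega)) ?_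
    by_contra hlt
    rw [not_le] at hlt
    have hpos : 0 < Function.minimalPeriod (g^[q]) y :=
      Function.minimalPeriod_pos_of_mem_periodicPts ⟨q, by omega, hper⟩
    have h1 := hyC (Function.minimalPeriod (g^[q]) y) hlt
    have h0 := hyC 0 (by omega)
    rw [if_neg hpos.ne', Function.iterate_minimalPeriod] at h1
    rw [if_pos rfl] at h0
    exact Set.disjoint_left.1 (hCd 1 0 (by decide)) h0 h1
  have hg2 : Function.IsPeriodicPt g (q * q) y := by
    have h3 : (g^[q])^[q] y = y := hy
    rw [← Function.iterate_mul] at h3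
    exact h3
  refine ⟨y, Function.minimalPeriod_pos_of_mem_periodicPts ⟨q * q, Nat.mul_pos hq hq, hg2⟩, ?_⟩
  rw [← hmin]
  refine Function.IsPeriodicPt.minimalPeriod_dvd ?_
  exact Function.IsPeriodicPt.iterate (Function.isPeriodicPt_minimalPeriod g y) q

end Pool.Agent.H61.PT.K4
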